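import Mathlib
import Pool.Agent.H.MP_921603_an.Main

/-!
Univalence in the unit disc of the whole `q`-family of Chebyshev-coefficient polynomials.
-/

set_option autoImplicit false

namespace Pool.Agent.Results.MP_921603_an.Univalent

open Polynomial Pool.Agent.H.MP_921603_an

/-- The node `x_N = cos (π / (N + 2))`. -/
noncomputable def xN (N : ℕ) : ℝ := Real.cos (Real.pi / (N + 2))

/-- The polynomial `F(q, z)` of the problem. -/
noncomputable def F (N q : ℕ) (z : ℂ) : ℂ :=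
  ((1 / ((Chebyshev.U ℝ ((q : ℤ) - 1)).eval (xN N) *
      (derivative (Chebyshev.U ℝ (N : ℤ))).eval (xN N)) : ℝ) : ℂ) *
    ∑ j ∈ Finset.Icc 1 N,
      (((derivative (Chebyshev.U ℝ ((N : ℤ) - j + 1))).eval (xN N) *
        (Chebyshev.U ℝ ((j : ℤ) * q - 1)).eval (xN N) : ℝ) : ℂ) * z ^ j

lemma xN_eq (N : ℕ) : xN N = Real.cos (tt (N + 2)) := by
  unfold xN tt; push_cast; rfl

/-- the derivative of `U_n` at `cos θ`. -/
lemma deriv_U_cos (n : ℤ) (θ : ℝ) :
    (derivative (Chebyshev.U ℝ n)).eval (Real.cos θ) * Real.sin θ ^ 3 =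
      Real.sin ((n + 1) * θ) * Real.cos θ - (n + 1) * Real.sin θ * Real.cos ((n + 1) * θ) := by
  have h1 : HasDerivAt (fun θ => (Chebyshev.U ℝ n).eval (Real.cos θ) * Real.sin θ)
      ((derivative (Chebyshev.U ℝ n)).eval (Real.cos θ) * (-Real.sin θ) * Real.sin θ +
        (Chebyshev.U ℝ n).eval (Real.cos θ) * Real.cos θ) θ := by
    have a := ((Chebyshev.U ℝ n).hasDerivAt (Real.cos θ)).comp θ (Real.hasDerivAt_cos θ)
    exact a.mul (Real.hasDerivAt_sin θ)
  have h2 : HasDerivAt (fun θ : ℝ => Real.sin (((n : ℝ) + 1) * θ))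
      (Real.cos (((n : ℝ) + 1) * θ) * ((n : ℝ) + 1)) θ := by
    have a : HasDerivAt (fun θ : ℝ => ((n : ℝ) + 1) * θ) ((n : ℝ) + 1) θ := by
      simpa using (hasDerivAt_id θ).const_mul ((n : ℝ) + 1)
    exact a.sin
  have h3 : (fun θ => (Chebyshev.U ℝ n).eval (Real.cos θ) * Real.sin θ) =
      fun θ : ℝ => Real.sin (((n : ℝ) + 1) * θ) := by
    funext θ
    exact Chebyshev.U_real_cos θ n
  rw [h3] at h1
  have h4 := h1.unique h2
  have h5 := Chebyshev.U_real_cos θ n
  linear_combination (-Real.sin θ) * h4 + (Real.cos θ) * h5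

lemma coeff_one {N : ℕ} {j : ℕ} :
    (derivative (Chebyshev.U ℝ ((N : ℤ) - j + 1))).eval (xN N) * Real.sin (tt (N + 2)) ^ 3 =
      AA (N + 2) j := by
  rw [xN_eq, deriv_U_cos]
  have hMt : (((N + 2 : ℕ)) : ℝ) * tt (N + 2) = Real.pi := M_mul_tt (by omega)
  have e : ((((N : ℤ) - j + 1 : ℤ) : ℝ) + 1) * tt (N + 2) = Real.pi - j * tt (N + 2) := by
    rw [← hMt]; push_cast; ring
  rw [e, Real.sin_pi_sub, Real.cos_pi_sub]
  unfold AA
  push_cast
  ring

lemma coeff_two {N q : ℕ} {j : ℕ} :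
    (Chebyshev.U ℝ ((j : ℤ) * q - 1)).eval (xN N) * Real.sin (tt (N + 2)) =
      Real.sin (j * (q * tt (N + 2))) := by
  rw [xN_eq, Chebyshev.U_real_cos]
  congr 1
  push_cast; ring

lemma AA_last {N : ℕ} : AA (N + 2) (N + 1) = 0 := by
  have hMt : (((N + 2 : ℕ)) : ℝ) * tt (N + 2) = Real.pi := M_mul_tt (by omega)
  have e : ((N + 1 : ℕ) : ℝ) * tt (N + 2) = Real.pi - tt (N + 2) := by
    rw [← hMt]; push_cast; ring
  unfold AA
  rw [e, Real.sin_pi_sub, Real.cos_pi_sub]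
  push_cast
  ring

lemma FF_eq {N q : ℕ} (z : ℂ) :
    FF (N + 2) (aq (N + 2) q) z = ∑ j ∈ Finset.Icc 1 N, (aq (N + 2) q j : ℂ) * z ^ j := by
  unfold FF
  rw [Finset.sum_range_succ]
  have h1 : aq (N + 2) q (N + 1) = 0 := by unfold aq; rw [AA_last, zero_mul]
  rw [h1, Complex.ofReal_zero, zero_mul, add_zero]
  symm
  apply Finset.sum_subset
  · intro j hj
    rw [Finset.mem_Icc] at hj
    rw [Finset.mem_range]; omega
  · intro j hj1 hj2
    rw [Finset.mem_range] at hj1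
    rw [Finset.mem_Icc] at hj2
    have : j = 0 := by omega
    subst this
    unfold aq
    simp

/-- **Main theorem**: for every `N ≥ 1` and `q ∈ {1, …, N}` the polynomial `F(q, ·)` is injective
on the open unit disc. -/
theorem result (N q : ℕ) (hN : 1 ≤ N) (hq1 : 1 ≤ q) (hqN : q ≤ N) :
    Set.InjOn (F N q) (Metric.ball (0 : ℂ) 1) := by
  have B : Basic (N + 2) q := ⟨by omega, hq1, by omega⟩
  have hs := B.sin_t
  have hα := B.sin_α
  have hc := B.cos_t
  set s := Real.sin (tt (N + 2)) with hsd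
  have hA1 : 0 < AA (N + 2) 1 := by
    unfold AA
    push_cast
    rw [one_mul]
    have hNr : (1 : ℝ) ≤ N := by exact_mod_cast hN
    have h1 : 0 < ((N : ℝ) + 2 - 1) * Real.sin (tt (N + 2)) * Real.cos (tt (N + 2)) := by
      apply mul_pos (mul_pos (by linarith) hs) hc
    have h2 : 0 < Real.cos (tt (N + 2)) * Real.sin (tt (N + 2)) := mul_pos hc hs
    linarith
  -- the prefactor is nonzero
  have hU : (Chebyshev.U ℝ ((q : ℤ) - 1)).eval (xN N) ≠ 0 := by
    have h := coeff_two (N := N) (q := q) (j := 1)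
    intro h0
    rw [Nat.cast_one, one_mul] at h
    rw [h0, zero_mul, Nat.cast_one, one_mul] at h
    exact hα.ne h
  have hU' : (derivative (Chebyshev.U ℝ (N : ℤ))).eval (xN N) ≠ 0 := by
    have h := coeff_one (N := N) (j := 1)
    have e : ((N : ℤ) - ((1 : ℕ) : ℤ) + 1) = (N : ℤ) := by push_cast; ring
    rw [e] at h
    intro h0
    rw [h0, zero_mul] at h
    exact hA1.ne h
  set K : ℝ := 1 / ((Chebyshev.U ℝ ((q : ℤ) - 1)).eval (xN N) *
      (derivative (Chebyshev.U ℝ (N : ℤ))).eval (xN N)) with hK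
  have hK0 : K ≠ 0 := one_div_ne_zero (mul_ne_zero hU hU')
  have key : ∀ z, F N q z * ((s ^ 4 : ℝ) : ℂ) = (K : ℂ) * FF (N + 2) (aq (N + 2) q) z := by
    intro z
    rw [FF_eq]
    unfold F
    rw [← hK, mul_assoc, Finset.sum_mul]
    congr 1
    apply Finset.sum_congr rfl
    intro j _
    have h1 := coeff_one (N := N) (j := j)
    have h2 := coeff_two (N := N) (q := q) (j := j)
    have h3 : (derivative (Chebyshev.U ℝ ((N : ℤ) - j + 1))).eval (xN N) *
        (Chebyshev.U ℝ ((j : ℤ) * q - 1)).eval (xN N) * s ^ 4 = aq (N + 2) q j := by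
      unfold aq
      rw [← h1, ← h2]
      ring
    rw [← h3]
    push_cast
    ring
  intro z hz w hw h
  have hs4 : ((s ^ 4 : ℝ) : ℂ) ≠ 0 := by
    have : s ^ 4 ≠ 0 := by positivity
    exact_mod_cast this
  have h1 : (K : ℂ) * FF (N + 2) (aq (N + 2) q) z = (K : ℂ) * FF (N + 2) (aq (N + 2) q) w := by
    rw [← key, ← key, h]
  have h2 := mul_left_cancel₀ (show (K : ℂ) ≠ 0 by exact_mod_cast hK0) h1
  exact B.injOn hz hw h2

end Pool.Agent.Results.MP_921603_an.Univalent
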